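import Pool.Agent.Helper70.VC74.Fin

set_option autoImplicit false

/-! Simple shadows of 3-graphs without four edges on seven vertices. -/

namespace Pool.Agent.Results.MP_87578a_co.SimpleShadow

open Finset Pool.Agent.Helper70.VC74

/-- Let `H` be a 3-graph on `n` vertices in which no seven vertices span four edges.
(1) Complete bipartite subgraphs of the shadow have at most `3 n` edges. (2) If at least `ε n ^ 2`
pairs of `A × B` lie in edges then the shadow between `A` and `B` shatters a subset of `B` with at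
least `c log n` elements. (3) In particular this holds for the whole shadow if `H` has at least
`ε n ^ 2` edges. (4) If the shadow between `A` and `B` shatters no subset of `B` with more than `d`
elements then at most `C n ^ (2 - 1 / (2 d + 3))` pairs of `A × B` lie in edges. -/
theorem result :
    (∀ (n : ℕ) (H : Finset (Finset (Fin n))), 7 ≤ n → Sparse H → ∀ S T : Finset (Fin n),
      (∀ s ∈ S, ∀ t ∈ T, Sh H s t) → S.card * T.card ≤ 3 * n) ∧
    (∀ ε : ℝ, 0 < ε → ∃ c : ℝ, 0 < c ∧ ∃ N : ℕ, ∀ n : ℕ, N ≤ n →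
      ∀ H : Finset (Finset (Fin n)), Sparse H → ∀ A B : Finset (Fin n),
        ε * (n : ℝ) ^ 2 ≤ (pairs H A B).card →
        ∃ S ⊆ B, c * Real.log n ≤ S.card ∧ Shat H A S) ∧
    (∀ ε : ℝ, 0 < ε → ∃ c : ℝ, 0 < c ∧ ∃ N : ℕ, ∀ n : ℕ, N ≤ n →
      ∀ H : Finset (Finset (Fin n)), Sparse H → ε * (n : ℝ) ^ 2 ≤ H.card →
        ∃ S : Finset (Fin n), c * Real.log n ≤ S.card ∧ Shat H univ S) ∧
    (∀ d : ℕ, ∃ C : ℝ, ∀ (n : ℕ) (H : Finset (Finset (Fin n))), Sparse H →
      ∀ A B : Finset (Fin n), (∀ S ⊆ B, Shat H A S → S.card ≤ d) →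
        ((pairs H A B).card : ℝ) ≤ C * (n : ℝ) ^ (2 - 1 / (2 * (d : ℝ) + 3))) := by
  refine ⟨?_, ?_, ?_, ?_⟩
  · intro n H hn hH S T hST
    have := biclique hH (by rw [Fintype.card_fin]; exact hn) hST
    rwa [Fintype.card_fin] at this
  · intro ε hε
    obtain ⟨c, hc, N, _, h⟩ := log_vc ε hε
    exact ⟨c, hc, N, h⟩
  · intro ε hε
    obtain ⟨c, hc, N, hN, h⟩ := log_vc ε hε
    refine ⟨c, hc, N, ?_⟩
    intro n hn H hH hHc
    have h2 := two_card_le hH (by rw [Fintype.card_fin]; omega)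
    have h3 : (2 : ℝ) * H.card ≤ (pairs H univ univ).card := by exact_mod_cast h2
    have h4 : (0 : ℝ) ≤ H.card := Nat.cast_nonneg _
    obtain ⟨S, _, hS⟩ := h n hn H hH univ univ (by linarith)
    exact ⟨S, hS⟩
  · intro d
    obtain ⟨C, _, h⟩ := power_vc d
    exact ⟨C, h⟩

end Pool.Agent.Results.MP_87578a_co.SimpleShadow
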